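import Pool.Agent.helper29.NS.SpecC
import Pool.Agent.helper58.NS.CE

/-!
# Project ns, module EC: the elliptic Carleman estimate
-/

namespace NS

open MeasureTheory Filter Topology Set

/-- the symmetric part of the conjugated operator `-Δ`, minus `τ m` -/
noncomputable def EC_S (l τ : ℝ) (W : ℝ × ℝ × ℝ → ℝ) (z : ℝ × ℝ × ℝ) : ℝ :=
  -(dx (dx W) z + dy (dy W) z)
    - (τ ^ 2 * (4 * l ^ 2 * rh z * Real.exp (-(l * rh z)) ^ 2) + τ * mm l z) * W z

/-- the other part -/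
noncomputable def EC_A (l τ : ℝ) (W : ℝ × ℝ × ℝ → ℝ) (z : ℝ × ℝ × ℝ) : ℝ :=
  2 * τ * (-(2 * l * z.2.1 * Real.exp (-(l * rh z))) * dx W z
        - 2 * l * z.2.2 * Real.exp (-(l * rh z)) * dy W z)
    + τ * ((4 * l ^ 2 * rh z - 4 * l) * Real.exp (-(l * rh z)) + mm l z) * W z

/-- the conjugated operator -/
noncomputable def EC_c (l τ : ℝ) (W : ℝ × ℝ × ℝ → ℝ) (z : ℝ × ℝ × ℝ) : ℝ :=
  conj 1 l τ W z - conj 0 l τ W z

theorem EC_split (l τ : ℝ) (W : ℝ × ℝ × ℝ → ℝ) (z : ℝ × ℝ × ℝ) :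
    EC_c l τ W z = EC_S l τ W z + EC_A l τ W z := by
  unfold EC_c conj EC_S EC_A
  ring

theorem EC_CJ (l τ : ℝ) (w : ℝ × ℝ × ℝ → ℝ) (hw : ContDiff ℝ 2 w) (z : ℝ × ℝ × ℝ) :
    EC_c l τ (fun z => Real.exp (τ * wt l z) * w z) z = Real.exp (τ * wt l z) * -(lap w z) := by
  unfold EC_c
  rw [CJ 1 l τ w hw z, CJ 0 l τ w hw z]
  unfold heat lap
  ring

/-- the function `H` -/
noncomputable def EC_H (l τ : ℝ) (z : ℝ × ℝ × ℝ) : ℝ := τ ^ 2 * WT_S l z + τ * mm l z

theorem EC_H1 (l τ : ℝ) : ContDiff ℝ 1 (EC_H l τ) := by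
  unfold EC_H
  have h1 : ContDiff ℝ 1 (WT_S l) := (WT_S3 l).of_le (by norm_num)
  have h2 : ContDiff ℝ 1 (mm l) := (WT_m3 l).of_le (by norm_num)
  fun_prop

theorem EC_Hv (l τ : ℝ) (z v : ℝ × ℝ × ℝ) : fderiv ℝ (EC_H l τ) z v =
    τ ^ 2 * fderiv ℝ (WT_S l) z v + τ * fderiv ℝ (mm l) z v := by
  have h1 : DifferentiableAt ℝ (WT_S l) z := ((WT_S3 l).differentiable (by norm_num)) z
  have h2 : DifferentiableAt ℝ (mm l) z := ((WT_m3 l).differentiable (by norm_num)) z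
  unfold EC_H
  rw [fderiv_fun_add (by fun_prop) (by fun_prop), fderiv_const_mul h1, fderiv_const_mul h2]
  simp only [ContinuousLinearMap.add_apply, ContinuousLinearMap.smul_apply, smul_eq_mul]

/-- The integrated identity. -/
theorem EC_WT (l : ℝ) : ∃ c1 c2 : ℝ × ℝ × ℝ → ℝ, Continuous c1 ∧ Continuous c2 ∧
  ∀ (τ : ℝ) (W : ℝ × ℝ × ℝ → ℝ), ContDiff ℝ 2 W → HasCompactSupport W →
  2 * ∫ z, EC_S l τ W z * EC_A l τ W z
    = τ * (∫ z, ((8 * l ^ 2 * rh z - 8 * l) * Real.exp (-(l * rh z))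
          * (dx W z ^ 2 + dy W z ^ 2)
        + 16 * l ^ 2 * Real.exp (-(l * rh z)) * (z.2.1 * dx W z + z.2.2 * dy W z) ^ 2))
      + ∫ z, (τ ^ 3 * (8 * l * (l * rh z - 1) * Real.exp (-(l * rh z))
          * (4 * l ^ 2 * rh z * Real.exp (-(l * rh z)) ^ 2)) + τ ^ 2 * c2 z + τ * c1 z)
            * W z ^ 2 := by
  have hG3 := WT_G3 l
  have hG2 : ContDiff ℝ 2 (WT_G l) := hG3.of_le (by norm_num)
  have hm1 : ContDiff ℝ 1 (mm l) := (WT_m3 l).of_le (by norm_num)
  have hφ3 := WT_wt3 l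
  have hφ2 : ContDiff ℝ 2 (wt l) := hφ3.of_le (by norm_num)
  have hφ1 : ContDiff ℝ 1 (wt l) := hφ3.of_le (by norm_num)
  have cGxx := IT_dxc (IT_dx1 hG2)
  have cGyy := IT_dyc (IT_dy1 hG2)
  have cmx := IT_dxc hm1
  have cmy := IT_dyc hm1
  have cφx := IT_dxc hφ1
  have cφy := IT_dyc hφ1
  have cm := hm1.continuous
  have cE : Continuous (fun z => Real.exp (-(l * rh z))) := (WT_E3 l).continuous
  have crh : Continuous rh := WT_rhd.continuous
  refine ⟨fun z => -(dx (dx (WT_G l)) z + dy (dy (WT_G l)) z),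
    fun z => 2 * (dx (mm l) z * dx (wt l) z + dy (mm l) z * dy (wt l) z)
      - 2 * mm l z ^ 2, ?_, ?_, ?_⟩
  · fun_prop
  · fun_prop
  intro τ W hW hc
  have hW1 : ContDiff ℝ 1 W := hW.of_le (by norm_num)
  have hH1 := EC_H1 l τ
  have hx1 := IT_dx1 hW
  have hy1 := IT_dy1 hW
  have hcx : HasCompactSupport (dx W) := IT_cs _ hc
  have hcy : HasCompactSupport (dy W) := IT_cs _ hc
  have cW := hW.continuous
  have cWx := hx1.continuous
  have cWy := hy1.continuous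
  have cWxx := IT_dxc hx1
  have cWyy := IT_dyc hy1
  have cH := hH1.continuous
  have cHx := IT_dxc hH1
  have cHy := IT_dyc hH1
  have cG := hG3.continuous
  have cφxx := IT_dxc (IT_dx1 hφ2)
  have cφyy := IT_dyc (IT_dy1 hφ2)
  have cφxy := IT_dxc (IT_dy1 hφ2)
  have i2 := I2_aux IB W (wt l) hW hc hφ3
  have i3 := I3 IB W (WT_G l) hW hc hG2
  have i5 := I5 IB W (EC_H l τ) (wt l) hW1 hc hH1 hφ2
  -- the left hand side
  have eL : (fun z => EC_S l τ W z * EC_A l τ W z) = fun z =>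
      ((-2 * τ) * ((dx (dx W) z + dy (dy W) z) * (dx (wt l) z * dx W z
          + dy (wt l) z * dy W z))
      + (-τ) * (WT_G l z * W z * (dx (dx W) z + dy (dy W) z)))
      + ((-2 * τ) * (EC_H l τ z * W z * (dx (wt l) z * dx W z + dy (wt l) z * dy W z))
      + (-τ) * (EC_H l τ z * WT_G l z * W z ^ 2)) := by
    funext z
    unfold EC_S EC_A EC_H WT_G WT_S
    rw [WT_dx, WT_dy]
    ring
  have j2 : Integrable (fun z => (dx (dx W) z + dy (dy W) z) * (dx (wt l) z * dx W z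
          + dy (wt l) z * dy W z)) :=
    IT_int (by fun_prop) ((hcx.mul_left.add hcy.mul_left).mul_left)
  have j3 : Integrable (fun z => WT_G l z * W z * (dx (dx W) z + dy (dy W) z)) :=
    IT_int (by fun_prop) (hc.mul_left.mul_right)
  have j5 : Integrable (fun z => EC_H l τ z * W z * (dx (wt l) z * dx W z
      + dy (wt l) z * dy W z)) :=
    IT_int (by fun_prop) (hc.mul_left.mul_right)
  have j6 : Integrable (fun z => EC_H l τ z * WT_G l z * W z ^ 2) :=
    IT_int (by fun_prop) (IT_sq hc).mul_left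
  have k12 : Integrable (fun z => (-2 * τ) * ((dx (dx W) z + dy (dy W) z) * (dx (wt l) z * dx W z
          + dy (wt l) z * dy W z)) + (-τ) * (WT_G l z * W z * (dx (dx W) z + dy (dy W) z))) :=
    (j2.const_mul _).add (j3.const_mul _)
  have k56 : Integrable (fun z => (-2 * τ) * (EC_H l τ z * W z * (dx (wt l) z * dx W z
      + dy (wt l) z * dy W z)) + (-τ) * (EC_H l τ z * WT_G l z * W z ^ 2)) :=
    (j5.const_mul _).add (j6.const_mul _)
  rw [eL, integral_add k12 k56, integral_add (j2.const_mul _) (j3.const_mul _),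
    integral_add (j5.const_mul _) (j6.const_mul _), integral_const_mul, integral_const_mul,
    integral_const_mul, integral_const_mul, i2, i3, i5]
  -- integrability of the pieces on the right hand side
  have a1 : Integrable (fun z => dx (dx (wt l)) z * dx W z ^ 2 + 2 * dx (dy (wt l)) z * dx W z
      * dy W z + dy (dy (wt l)) z * dy W z ^ 2) :=
    IT_int (by fun_prop) (((IT_sq hcx).mul_left.add hcy.mul_left).add (IT_sq hcy).mul_left)
  have a2 : Integrable (fun z => (dx (dx (wt l)) z + dy (dy (wt l)) z)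
      * (dx W z ^ 2 + dy W z ^ 2)) :=
    IT_int (by fun_prop) ((IT_sq hcx).add (IT_sq hcy)).mul_left
  have a3 : Integrable (fun z => (dx (dx (WT_G l)) z + dy (dy (WT_G l)) z) * W z ^ 2) :=
    IT_int (by fun_prop) (IT_sq hc).mul_left
  have a4 : Integrable (fun z => WT_G l z * (dx W z ^ 2 + dy W z ^ 2)) :=
    IT_int (by fun_prop) ((IT_sq hcx).add (IT_sq hcy)).mul_left
  have a6 : Integrable (fun z => (dx (EC_H l τ) z * dx (wt l) z + dy (EC_H l τ) z
      * dy (wt l) z + EC_H l τ z * (dx (dx (wt l)) z + dy (dy (wt l)) z)) * W z ^ 2) :=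
    IT_int (by fun_prop) (IT_sq hc).mul_left
  -- gradient part
  have eg : (fun z => (8 * l ^ 2 * rh z - 8 * l) * Real.exp (-(l * rh z))
          * (dx W z ^ 2 + dy W z ^ 2)
        + 16 * l ^ 2 * Real.exp (-(l * rh z)) * (z.2.1 * dx W z + z.2.2 * dy W z) ^ 2) =
      fun z => (4 * (dx (dx (wt l)) z * dx W z ^ 2 + 2 * dx (dy (wt l)) z * dx W z
      * dy W z + dy (dy (wt l)) z * dy W z ^ 2) + (-2) * ((dx (dx (wt l)) z + dy (dy (wt l)) z)
      * (dx W z ^ 2 + dy W z ^ 2))) + 2 * (WT_G l z * (dx W z ^ 2 + dy W z ^ 2)) := by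
    funext z
    rw [WT_dxx, WT_dxy, WT_dyy]
    unfold WT_G mm rh
    ring
  have b12 : Integrable (fun z => 4 * (dx (dx (wt l)) z * dx W z ^ 2 + 2 * dx (dy (wt l)) z
      * dx W z * dy W z + dy (dy (wt l)) z * dy W z ^ 2) + (-2) * ((dx (dx (wt l)) z
      + dy (dy (wt l)) z) * (dx W z ^ 2 + dy W z ^ 2))) := (a1.const_mul 4).add (a2.const_mul (-2))
  have hg : ∫ z, ((8 * l ^ 2 * rh z - 8 * l) * Real.exp (-(l * rh z))
          * (dx W z ^ 2 + dy W z ^ 2)
        + 16 * l ^ 2 * Real.exp (-(l * rh z)) * (z.2.1 * dx W z + z.2.2 * dy W z) ^ 2) =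
      4 * (∫ z, (dx (dx (wt l)) z * dx W z ^ 2 + 2 * dx (dy (wt l)) z * dx W z
      * dy W z + dy (dy (wt l)) z * dy W z ^ 2)) + (-2) * (∫ z, (dx (dx (wt l)) z
      + dy (dy (wt l)) z) * (dx W z ^ 2 + dy W z ^ 2))
      + 2 * ∫ z, WT_G l z * (dx W z ^ 2 + dy W z ^ 2) := by
    rw [eg, integral_add b12 (a4.const_mul 2), integral_add (a1.const_mul 4) (a2.const_mul (-2)),
      integral_const_mul, integral_const_mul, integral_const_mul]
  -- zero order part
  have ez : (fun z => (τ ^ 3 * (8 * l * (l * rh z - 1) * Real.exp (-(l * rh z))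
          * (4 * l ^ 2 * rh z * Real.exp (-(l * rh z)) ^ 2)) + τ ^ 2 *
          (2 * (dx (mm l) z * dx (wt l) z + dy (mm l) z * dy (wt l) z)
      - 2 * mm l z ^ 2) + τ * (-(dx (dx (WT_G l)) z
        + dy (dy (WT_G l)) z))) * W z ^ 2) =
      fun z => ((-τ) * ((dx (dx (WT_G l)) z + dy (dy (WT_G l)) z) * W z ^ 2)
        + (2 * τ) * ((dx (EC_H l τ) z * dx (wt l) z
        + dy (EC_H l τ) z * dy (wt l) z + EC_H l τ z * (dx (dx (wt l)) z
        + dy (dy (wt l)) z)) * W z ^ 2)) + (-2 * τ) * (EC_H l τ z * WT_G l z * W z ^ 2) := by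
    funext z
    have hHx : dx (EC_H l τ) z = τ ^ 2 * dx (WT_S l) z + τ * dx (mm l) z := by
      unfold dx; rw [EC_Hv]
    have hHy : dy (EC_H l τ) z = τ ^ 2 * dy (WT_S l) z + τ * dy (mm l) z := by
      unfold dy; rw [EC_Hv]
    have hSx : dx (WT_S l) z = 8 * l ^ 2 * z.2.1 * (1 - 2 * l * rh z)
      * Real.exp (-(l * rh z)) ^ 2 := by unfold dx; rw [WT_Sv]; ring
    have hSy : dy (WT_S l) z = 8 * l ^ 2 * z.2.2 * (1 - 2 * l * rh z)
      * Real.exp (-(l * rh z)) ^ 2 := by unfold dy; rw [WT_Sv]; ring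
    have hwx : dx (wt l) z = (-(2 * l) * z.2.1) * Real.exp (-(l * rh z)) := by rw [WT_dx]
    have hwy : dy (wt l) z = (-(2 * l) * z.2.2) * Real.exp (-(l * rh z)) := by rw [WT_dy]
    rw [hHx, hHy, hSx, hSy, WT_dxx, WT_dyy, hwx, hwy]
    unfold EC_H WT_G WT_S
    have hm : mm l z = 4 * l ^ 2 * rh z * Real.exp (-(l * rh z)) := rfl
    rw [hm]
    unfold rh
    ring
  have d12 : Integrable (fun z => (-τ) * ((dx (dx (WT_G l)) z + dy (dy (WT_G l)) z)
      * W z ^ 2) + (2 * τ) * ((dx (EC_H l τ) z * dx (wt l) z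
        + dy (EC_H l τ) z * dy (wt l) z + EC_H l τ z * (dx (dx (wt l)) z
        + dy (dy (wt l)) z)) * W z ^ 2)) := (a3.const_mul _).add (a6.const_mul _)
  have hz : ∫ z, (τ ^ 3 * (8 * l * (l * rh z - 1) * Real.exp (-(l * rh z))
          * (4 * l ^ 2 * rh z * Real.exp (-(l * rh z)) ^ 2)) + τ ^ 2 *
          (2 * (dx (mm l) z * dx (wt l) z + dy (mm l) z * dy (wt l) z)
      - 2 * mm l z ^ 2) + τ * (-(dx (dx (WT_G l)) z
        + dy (dy (WT_G l)) z))) * W z ^ 2 =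
      ((-τ) * (∫ z, (dx (dx (WT_G l)) z + dy (dy (WT_G l)) z) * W z ^ 2)
        + (2 * τ) * (∫ z, (dx (EC_H l τ) z
        * dx (wt l) z + dy (EC_H l τ) z * dy (wt l) z + EC_H l τ z * (dx (dx (wt l)) z
        + dy (dy (wt l)) z)) * W z ^ 2)) + (-2 * τ) * ∫ z, EC_H l τ z * WT_G l z * W z ^ 2
      := by
    rw [ez, integral_add d12 (j6.const_mul _), integral_add (a3.const_mul _) (a6.const_mul _),
      integral_const_mul, integral_const_mul, integral_const_mul]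
  rw [hg, hz]
  ring

theorem EC_CZ (l ε R : ℝ) (hl : 0 < l) (hε : 0 < ε) (hεR : ε < R) (hlε : 2 ≤ l * ε ^ 2) :
  ∃ c : ℝ, ∃ τ0 : ℝ, 0 < c ∧ 1 ≤ τ0 ∧ ∀ τ, τ0 ≤ τ → ∀ W : ℝ × ℝ × ℝ → ℝ, ContDiff ℝ 2 W →
  HasCompactSupport W → (∀ z, W z ≠ 0 → |z.1| ≤ 2 ∧ ε ^ 2 ≤ rh z ∧ rh z ≤ R ^ 2) →
  c * (τ ^ 3 * ∫ z, W z ^ 2) + c * (τ * ∫ z, (dx W z ^ 2 + dy W z ^ 2))
    ≤ ∫ z, EC_c l τ W z ^ 2 := by
  obtain ⟨c1, c2, hc1, hc2, hWT⟩ := EC_WT l
  have hR : 0 < R := hε.trans hεR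
  set e0 : ℝ := Real.exp (-(l * R ^ 2)) with he0
  have he0p : 0 < e0 := Real.exp_pos _
  set a0 : ℝ := 32 * l ^ 3 * ε ^ 2 * e0 ^ 3 with ha0
  have ha0p : 0 < a0 := by positivity
  -- bound of c1, c2
  have hK : IsCompact (Icc (-2 : ℝ) 2 ×ˢ (Icc (-R) R ×ˢ Icc (-R) R)) :=
    isCompact_Icc.prod (isCompact_Icc.prod isCompact_Icc)
  obtain ⟨M1, hM1⟩ := hK.exists_bound_of_continuousOn hc1.continuousOn
  obtain ⟨M2, hM2⟩ := hK.exists_bound_of_continuousOn hc2.continuousOn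
  set M : ℝ := |M1| + |M2| with hM
  have hM0 : 0 ≤ M := by positivity
  refine ⟨min (a0 / 2) (8 * l * e0), max 1 (4 * M / a0), ?_, le_max_left _ _, ?_⟩
  · exact lt_min (by positivity) (by positivity)
  intro τ hτ W hW hc hsupp
  have hτ1 : 1 ≤ τ := (le_max_left _ _).trans hτ
  have hτ2 : 4 * M / a0 ≤ τ := (le_max_right _ _).trans hτ
  have hτM : 4 * M ≤ τ * a0 := by rwa [div_le_iff₀ ha0p] at hτ2
  set c : ℝ := min (a0 / 2) (8 * l * e0) with hcdef
  have hca : c ≤ a0 / 2 := min_le_left _ _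
  have hcb : c ≤ 8 * l * e0 := min_le_right _ _
  have hW1 : ContDiff ℝ 1 W := hW.of_le (by norm_num)
  have hts : tsupport W ⊆ {z | |z.1| ≤ 2 ∧ ε ^ 2 ≤ rh z ∧ rh z ≤ R ^ 2} := by
    apply closure_minimal
    · intro z hz; exact hsupp z hz
    · have crh : Continuous rh := WT_rhd.continuous
      refine (isClosed_le (continuous_abs.comp continuous_fst) continuous_const).inter
        ((isClosed_le continuous_const crh).inter (isClosed_le crh continuous_const))
  have cW := hW.continuous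
  have cWx := (IT_dx1 hW).continuous
  have cWy := (IT_dy1 hW).continuous
  have cWxx := IT_dxc (IT_dx1 hW)
  have cWyy := IT_dyc (IT_dy1 hW)
  have crh : Continuous rh := WT_rhd.continuous
  have cE : Continuous (fun z => Real.exp (-(l * rh z))) := (WT_E3 l).continuous
  have cm : Continuous (mm l) := (WT_m3 l).continuous
  have cS : Continuous (EC_S l τ W) := by unfold EC_S; fun_prop
  have cA : Continuous (EC_A l τ W) := by unfold EC_A; fun_prop
  have cs : ∀ f : ℝ × ℝ × ℝ → ℝ, (∀ z, z ∉ tsupport W → f z = 0) → HasCompactSupport f :=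
    fun f hf => HasCompactSupport.intro hc hf
  have hS0 : ∀ z, z ∉ tsupport W → EC_S l τ W z = 0 := by
    intro z hz
    obtain ⟨h1, h2, h3, h4, h5, h6⟩ := CZ_zero W z hz
    unfold EC_S
    rw [h1, h5, h6]
    ring
  have hA0 : ∀ z, z ∉ tsupport W → EC_A l τ W z = 0 := by
    intro z hz
    obtain ⟨h1, h2, h3, h4, h5, h6⟩ := CZ_zero W z hz
    unfold EC_A
    rw [h1, h3, h4]
    ring
  have iSA : Integrable (fun z => EC_S l τ W z * EC_A l τ W z) :=
    IT_int (cS.mul cA) (cs _ fun z hz => by rw [hS0 z hz, zero_mul])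
  have iC : Integrable (fun z => EC_c l τ W z ^ 2) := by
    have e : (fun z => EC_c l τ W z ^ 2) = fun z => (EC_S l τ W z + EC_A l τ W z) ^ 2 := by
      funext z; rw [EC_split]
    rw [e]
    exact IT_int ((cS.add cA).pow 2) (cs _ fun z hz => by rw [hS0 z hz, hA0 z hz]; ring)
  have h1 : 2 * ∫ z, EC_S l τ W z * EC_A l τ W z ≤ ∫ z, EC_c l τ W z ^ 2 := by
    rw [← integral_const_mul]
    apply integral_mono (iSA.const_mul 2) iC
    intro z
    simp only [EC_split]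
    nlinarith [sq_nonneg (EC_S l τ W z), sq_nonneg (EC_A l τ W z)]
  refine le_trans ?_ h1
  rw [hWT τ W hW hc]
  -- pointwise facts on the support
  have hpt : ∀ z ∈ tsupport W, 1 ≤ l * rh z - 1 ∧ ε ^ 2 ≤ rh z ∧
      e0 ≤ Real.exp (-(l * rh z)) ∧ |c1 z| ≤ M ∧ |c2 z| ≤ M := by
    intro z hz
    obtain ⟨b1, b2, b3⟩ := hts hz
    have hmem : z ∈ Icc (-2 : ℝ) 2 ×ˢ (Icc (-R) R ×ˢ Icc (-R) R) := by
      have hx : |z.2.1| ≤ R := by
        apply abs_le_of_sq_le_sq _ hR.le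
        unfold rh at b3
        nlinarith [sq_nonneg z.2.2]
      have hy : |z.2.2| ≤ R := by
        apply abs_le_of_sq_le_sq _ hR.le
        unfold rh at b3
        nlinarith [sq_nonneg z.2.1]
      exact ⟨abs_le.mp b1, abs_le.mp hx, abs_le.mp hy⟩
    refine ⟨?_, b2, ?_, ?_, ?_⟩
    · have := mul_le_mul_of_nonneg_left b2 hl.le
      linarith
    · rw [he0]
      apply Real.exp_le_exp.mpr
      have := mul_le_mul_of_nonneg_left b3 hl.le
      linarith
    · have := hM1 z hmem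
      rw [Real.norm_eq_abs] at this
      exact this.trans ((le_abs_self M1).trans (by rw [hM]; linarith [abs_nonneg M2]))
    · have := hM2 z hmem
      rw [Real.norm_eq_abs] at this
      exact this.trans ((le_abs_self M2).trans (by rw [hM]; linarith [abs_nonneg M1]))
  have hcx0 : HasCompactSupport (dx W) := IT_cs _ hc
  have hcy0 : HasCompactSupport (dy W) := IT_cs _ hc
  -- gradient part
  have ig : Integrable (fun z => dx W z ^ 2 + dy W z ^ 2) :=
    IT_int (by fun_prop) ((IT_sq hcx0).add (IT_sq hcy0))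
  have iG : Integrable (fun z => (8 * l ^ 2 * rh z - 8 * l) * Real.exp (-(l * rh z))
          * (dx W z ^ 2 + dy W z ^ 2)
        + 16 * l ^ 2 * Real.exp (-(l * rh z)) * (z.2.1 * dx W z + z.2.2 * dy W z) ^ 2) := by
    apply IT_int (by fun_prop)
    apply cs
    intro z hz
    obtain ⟨h1, h2, h3, h4, h5, h6⟩ := CZ_zero W z hz
    rw [h3, h4]
    ring
  have hgrad : c * (τ * ∫ z, (dx W z ^ 2 + dy W z ^ 2)) ≤
      τ * (∫ z, ((8 * l ^ 2 * rh z - 8 * l) * Real.exp (-(l * rh z))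
          * (dx W z ^ 2 + dy W z ^ 2)
        + 16 * l ^ 2 * Real.exp (-(l * rh z)) * (z.2.1 * dx W z + z.2.2 * dy W z) ^ 2)) := by
    have hle : (8 * l * e0) * (∫ z, (dx W z ^ 2 + dy W z ^ 2)) ≤
        ∫ z, ((8 * l ^ 2 * rh z - 8 * l) * Real.exp (-(l * rh z))
          * (dx W z ^ 2 + dy W z ^ 2)
        + 16 * l ^ 2 * Real.exp (-(l * rh z)) * (z.2.1 * dx W z + z.2.2 * dy W z) ^ 2) := by
      rw [← integral_const_mul]
      apply integral_mono (ig.const_mul _) iG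
      intro z
      simp only
      by_cases hz : z ∈ tsupport W
      · obtain ⟨b1, b2, b3, b4, b5⟩ := hpt z hz
        have hg0 : 0 ≤ dx W z ^ 2 + dy W z ^ 2 := by positivity
        have e1 : 8 * l * e0 ≤ (8 * l ^ 2 * rh z - 8 * l) * Real.exp (-(l * rh z)) := by
          have e2 : (8 * l ^ 2 * rh z - 8 * l) * Real.exp (-(l * rh z)) =
              8 * l * ((l * rh z - 1) * Real.exp (-(l * rh z))) := by ring
          rw [e2]
          apply mul_le_mul_of_nonneg_left _ (by positivity)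
          calc e0 = 1 * e0 := by ring
            _ ≤ (l * rh z - 1) * Real.exp (-(l * rh z)) :=
              mul_le_mul b1 b3 he0p.le (by linarith)
        have e3 : 0 ≤ 16 * l ^ 2 * Real.exp (-(l * rh z))
            * (z.2.1 * dx W z + z.2.2 * dy W z) ^ 2 := by positivity
        have e4 := mul_le_mul_of_nonneg_right e1 hg0
        linarith
      · obtain ⟨h1, h2, h3, h4, h5, h6⟩ := CZ_zero W z hz
        rw [h3, h4]
        simp
    have hI0 : 0 ≤ ∫ z, (dx W z ^ 2 + dy W z ^ 2) :=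
      integral_nonneg fun z => by positivity
    calc c * (τ * ∫ z, (dx W z ^ 2 + dy W z ^ 2))
        ≤ (8 * l * e0) * (τ * ∫ z, (dx W z ^ 2 + dy W z ^ 2)) :=
          mul_le_mul_of_nonneg_right hcb (by positivity)
      _ = τ * ((8 * l * e0) * (∫ z, (dx W z ^ 2 + dy W z ^ 2))) := by ring
      _ ≤ _ := mul_le_mul_of_nonneg_left hle (by positivity)
  -- zero order part
  have i0 : Integrable (fun z => W z ^ 2) := IT_int (by fun_prop) (IT_sq hc)
  have iZ : Integrable (fun z => (τ ^ 3 * (8 * l * (l * rh z - 1) * Real.exp (-(l * rh z))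
          * (4 * l ^ 2 * rh z * Real.exp (-(l * rh z)) ^ 2)) + τ ^ 2 * c2 z + τ * c1 z)
          * W z ^ 2) := IT_int (by fun_prop) (IT_sq hc).mul_left
  have hzero : c * (τ ^ 3 * ∫ z, W z ^ 2) ≤
      ∫ z, (τ ^ 3 * (8 * l * (l * rh z - 1) * Real.exp (-(l * rh z))
          * (4 * l ^ 2 * rh z * Real.exp (-(l * rh z)) ^ 2)) + τ ^ 2 * c2 z + τ * c1 z)
          * W z ^ 2 := by
    have hI0 : 0 ≤ ∫ z, W z ^ 2 := integral_nonneg fun z => by positivity
    have hle : (τ ^ 3 * (a0 / 2)) * (∫ z, W z ^ 2) ≤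
      ∫ z, (τ ^ 3 * (8 * l * (l * rh z - 1) * Real.exp (-(l * rh z))
          * (4 * l ^ 2 * rh z * Real.exp (-(l * rh z)) ^ 2)) + τ ^ 2 * c2 z + τ * c1 z)
          * W z ^ 2 := by
      rw [← integral_const_mul]
      apply integral_mono (i0.const_mul _) iZ
      intro z
      simp only
      by_cases hz : z ∈ tsupport W
      · obtain ⟨b1, b2, b3, b4, b5⟩ := hpt z hz
        apply mul_le_mul_of_nonneg_right _ (sq_nonneg _)
        have hEp : 0 < Real.exp (-(l * rh z)) := Real.exp_pos _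
        have hrh : 0 < rh z := lt_of_lt_of_le (by positivity) b2
        have e1 : e0 ^ 3 * ε ^ 2 ≤ (l * rh z - 1) * (Real.exp (-(l * rh z)) ^ 3 * rh z) := by
          calc e0 ^ 3 * ε ^ 2 = 1 * (e0 ^ 3 * ε ^ 2) := by ring
            _ ≤ (l * rh z - 1) * (Real.exp (-(l * rh z)) ^ 3 * rh z) := by
              apply mul_le_mul b1 _ (by positivity) (by linarith)
              exact mul_le_mul (pow_le_pow_left₀ he0p.le b3 3) b2 (by positivity) (by positivity)
        have e2 : τ ^ 3 * a0 ≤ τ ^ 3 * (8 * l * (l * rh z - 1) * Real.exp (-(l * rh z))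
          * (4 * l ^ 2 * rh z * Real.exp (-(l * rh z)) ^ 2)) := by
          have e3 : τ ^ 3 * (8 * l * (l * rh z - 1) * Real.exp (-(l * rh z))
          * (4 * l ^ 2 * rh z * Real.exp (-(l * rh z)) ^ 2)) = (32 * τ ^ 3 * l ^ 3) *
            ((l * rh z - 1) * (Real.exp (-(l * rh z)) ^ 3 * rh z)) := by ring
          have e4 : τ ^ 3 * a0 = (32 * τ ^ 3 * l ^ 3) * (e0 ^ 3 * ε ^ 2) := by
            rw [ha0]; ring
          rw [e3, e4]
          exact mul_le_mul_of_nonneg_left e1 (by positivity)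
        have f1 := (abs_le.mp b4).1
        have f2 := (abs_le.mp b5).1
        have hτ0 : 0 < τ := by linarith
        have g1 : -(τ ^ 2 * M) ≤ τ ^ 2 * c2 z := by
          have k := mul_le_mul_of_nonneg_left f2 (sq_nonneg τ)
          linarith
        have g2 : -(τ ^ 2 * M) ≤ τ * c1 z := by
          have k1 := mul_le_mul_of_nonneg_left f1 hτ0.le
          have k2 := mul_nonneg (mul_nonneg hτ0.le hM0) (sub_nonneg.mpr hτ1)
          have k3 : τ * M * (τ - 1) = τ ^ 2 * M - τ * M := by ring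
          linarith
        have g3 : τ ^ 2 * (4 * M) ≤ τ ^ 2 * (τ * a0) :=
          mul_le_mul_of_nonneg_left hτM (sq_nonneg τ)
        have g4 : τ ^ 3 * a0 = τ ^ 2 * (τ * a0) := by ring
        linarith
      · obtain ⟨h1, h2, h3, h4, h5, h6⟩ := CZ_zero W z hz
        rw [h1]
        simp
    calc c * (τ ^ 3 * ∫ z, W z ^ 2) ≤ (a0 / 2) * (τ ^ 3 * ∫ z, W z ^ 2) :=
          mul_le_mul_of_nonneg_right hca (by positivity)
      _ = (τ ^ 3 * (a0 / 2)) * (∫ z, W z ^ 2) := by ring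
      _ ≤ _ := hle
  linarith

theorem EC (hCW : CW_stmt) : EC_stmt := by
  intro l ε R hl hε hεR hlε
  obtain ⟨c, τ0, hc, hτ0, hCZ⟩ := EC_CZ l ε R hl hε hεR hlε
  have hR : 0 < R := hε.trans hεR
  refine ⟨(3 + 8 * l ^ 2 * R ^ 2) / c, τ0, by positivity, hτ0, ?_⟩
  intro τ hτ w hw hcw hsupp
  have hτp : 0 < τ := by linarith
  obtain ⟨hW, hcW, hgr⟩ := hCW l τ w hw hcw
  set W : ℝ × ℝ × ℝ → ℝ := fun z => Real.exp (τ * wt l z) * w z with hWdef
  have hWs : ∀ z, W z ≠ 0 → |z.1| ≤ 2 ∧ ε ^ 2 ≤ rh z ∧ rh z ≤ R ^ 2 := by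
    intro z hz
    apply hsupp z
    intro h
    apply hz
    rw [hWdef]
    simp [h]
  have key := hCZ τ hτ W hW hcW hWs
  have hexp : ∀ z, Real.exp (2 * τ * wt l z) = Real.exp (τ * wt l z) ^ 2 := by
    intro z
    rw [← Real.exp_nat_mul]
    congr 1
    push_cast
    ring
  have e1 : (fun z => EC_c l τ W z ^ 2) =
      fun z => Real.exp (2 * τ * wt l z) * lap w z ^ 2 := by
    funext z
    rw [hWdef, EC_CJ l τ w hw z, hexp]
    ring
  rw [e1] at key
  have e2 : (fun z => Real.exp (2 * τ * wt l z) * w z ^ 2) = fun z => W z ^ 2 := by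
    funext z
    rw [hexp, hWdef]
    ring
  rw [e2]
  have cW := hW.continuous
  have cWx := (IT_dx1 hW).continuous
  have cWy := (IT_dy1 hW).continuous
  have cw := hw.continuous
  have cwx := (IT_dx1 hw).continuous
  have cwy := (IT_dy1 hw).continuous
  have cwt : Continuous (wt l) := (WT_wt3 l).continuous
  have hcx0 : HasCompactSupport (dx W) := IT_cs _ hcW
  have hcy0 : HasCompactSupport (dy W) := IT_cs _ hcW
  have hcx1 : HasCompactSupport (dx w) := IT_cs _ hcw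
  have hcy1 : HasCompactSupport (dy w) := IT_cs _ hcw
  have i0 : Integrable (fun z => W z ^ 2) := IT_int (by fun_prop) (IT_sq hcW)
  have ig : Integrable (fun z => dx W z ^ 2 + dy W z ^ 2) :=
    IT_int (by fun_prop) ((IT_sq hcx0).add (IT_sq hcy0))
  have iw : Integrable (fun z => Real.exp (2 * τ * wt l z) * (dx w z ^ 2 + dy w z ^ 2)) :=
    IT_int (by fun_prop) ((IT_sq hcx1).add (IT_sq hcy1)).mul_left
  have hI0 : 0 ≤ ∫ z, W z ^ 2 := integral_nonneg fun z => by positivity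
  have hIg : 0 ≤ ∫ z, (dx W z ^ 2 + dy W z ^ 2) := integral_nonneg fun z => by positivity
  have hgrad : (∫ z, Real.exp (2 * τ * wt l z) * (dx w z ^ 2 + dy w z ^ 2)) ≤
      2 * (∫ z, (dx W z ^ 2 + dy W z ^ 2)) + (8 * τ ^ 2 * l ^ 2 * R ^ 2) * ∫ z, W z ^ 2 := by
    rw [← integral_const_mul, ← integral_const_mul, ← integral_add (ig.const_mul 2)
      (i0.const_mul _)]
    apply integral_mono iw ((ig.const_mul 2).add (i0.const_mul _))
    intro z
    simp only [Pi.add_apply]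
    obtain ⟨g1, g2⟩ := hgr z
    by_cases hz : rh z ≤ R ^ 2
    · rw [hexp]
      have f1 : Real.exp (τ * wt l z) ^ 2 * (dx w z ^ 2 + dy w z ^ 2) =
          (Real.exp (τ * wt l z) * dx w z) ^ 2 + (Real.exp (τ * wt l z) * dy w z) ^ 2 := by ring
      rw [f1, g1, g2]
      have hWz : Real.exp (τ * wt l z) * w z = W z := rfl
      rw [hWz]
      have hE1 : Real.exp (-(l * rh z)) ≤ 1 := by
        apply Real.exp_le_one_iff.mpr
        have : 0 ≤ rh z := by unfold rh; positivity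
        have := mul_nonneg hl.le this
        linarith
      have hE0 : 0 < Real.exp (-(l * rh z)) := Real.exp_pos _
      set E := Real.exp (-(l * rh z)) with hE
      have hE2 : E ^ 2 ≤ 1 := by nlinarith
      have hrh : rh z = z.2.1 ^ 2 + z.2.2 ^ 2 := rfl
      have s1 : ∀ a b : ℝ, (a + b) ^ 2 ≤ 2 * a ^ 2 + 2 * b ^ 2 := fun a b => by
        nlinarith [sq_nonneg (a - b)]
      have t1 := s1 (dx W z) (2 * τ * l * z.2.1 * E * W z)
      have t2 := s1 (dy W z) (2 * τ * l * z.2.2 * E * W z)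
      have t3 : 2 * (2 * τ * l * z.2.1 * E * W z) ^ 2 + 2 * (2 * τ * l * z.2.2 * E * W z) ^ 2 =
          (8 * τ ^ 2 * l ^ 2 * W z ^ 2) * (rh z * E ^ 2) := by rw [hrh]; ring
      have t4 : rh z * E ^ 2 ≤ R ^ 2 := by
        have h0 : 0 ≤ rh z := by unfold rh; positivity
        calc rh z * E ^ 2 ≤ rh z * 1 := mul_le_mul_of_nonneg_left hE2 h0
          _ ≤ R ^ 2 := by linarith
      have t5 := mul_le_mul_of_nonneg_left t4 (by positivity : 0 ≤ 8 * τ ^ 2 * l ^ 2 * W z ^ 2)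
      nlinarith [t1, t2, t3, t5]
    · have hz' : z ∉ tsupport w := by
        intro hmem
        apply hz
        have hts : tsupport w ⊆ {z | rh z ≤ R ^ 2} := by
          apply closure_minimal
          · intro y hy; exact (hsupp y hy).2.2
          · exact isClosed_le WT_rhd.continuous continuous_const
        exact hts hmem
      obtain ⟨h1, h2, h3, h4, h5, h6⟩ := CZ_zero w z hz'
      rw [h3, h4]
      have : 0 ≤ 2 * (dx W z ^ 2 + dy W z ^ 2) + 8 * τ ^ 2 * l ^ 2 * R ^ 2 * W z ^ 2 := by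
        positivity
      simpa using this
  set I0 := ∫ z, W z ^ 2 with hI0def
  set I1 := ∫ z, (dx W z ^ 2 + dy W z ^ 2) with hI1def
  set Iw := ∫ z, Real.exp (2 * τ * wt l z) * (dx w z ^ 2 + dy w z ^ 2) with hIw
  set Ih := ∫ z, Real.exp (2 * τ * wt l z) * lap w z ^ 2 with hIh
  have hstep : τ ^ 3 * I0 + τ * Iw ≤ (3 + 8 * l ^ 2 * R ^ 2) * (τ ^ 3 * I0 + τ * I1) := by
    have k1 := mul_le_mul_of_nonneg_left hgrad hτp.le
    have k2 : τ * (2 * I1 + 8 * τ ^ 2 * l ^ 2 * R ^ 2 * I0) =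
        2 * (τ * I1) + 8 * l ^ 2 * R ^ 2 * (τ ^ 3 * I0) := by ring
    have k3 : 0 ≤ τ * I1 := by positivity
    have k4 : 0 ≤ τ ^ 3 * I0 := by positivity
    have k5 : 0 ≤ 8 * l ^ 2 * R ^ 2 * (τ * I1) := by positivity
    nlinarith
  have hkey2 : c * (τ ^ 3 * I0 + τ * I1) ≤ Ih := by linarith
  calc τ ^ 3 * I0 + τ * Iw ≤ (3 + 8 * l ^ 2 * R ^ 2) * (τ ^ 3 * I0 + τ * I1) := hstep
    _ = (3 + 8 * l ^ 2 * R ^ 2) / c * (c * (τ ^ 3 * I0 + τ * I1)) := by field_simp
    _ ≤ (3 + 8 * l ^ 2 * R ^ 2) / c * Ih := mul_le_mul_of_nonneg_left hkey2 (by positivity)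

end NS
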