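import Pool.Agent.helper29.NS.SpecC
import Pool.Agent.helper58.NS.IT

/-!
# Project ns, module KS: unique continuation from the circle for the system
-/

namespace NS

open MeasureTheory Filter Topology Set

/-- the open solid cylinder -/
def KS_A (R : ℝ) : Set (ℝ × ℝ × ℝ) := {z | z.2.1 ^ 2 + z.2.2 ^ 2 < R ^ 2}

/-- the exterior of a disc -/
def KS_O (ρ : ℝ) : Set (ℝ × ℝ) := {q | ρ ^ 2 < q.1 ^ 2 + q.2 ^ 2}

theorem KS_gc : Continuous (fun z : ℝ × ℝ × ℝ => z.2.1 ^ 2 + z.2.2 ^ 2) := by fun_prop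

theorem KS_Ao (R : ℝ) : IsOpen (KS_A R) := isOpen_lt KS_gc continuous_const

theorem KS_fr (R : ℝ) : frontier (KS_A R) ⊆ {z | z.2 ∈ Circ R} := by
  intro z hz
  exact frontier_lt_subset_eq KS_gc continuous_const hz

/-- second directional derivatives -/
theorem KS_dir {F : ℝ × ℝ × ℝ → ℝ} {z : ℝ × ℝ × ℝ} (hF : ContDiffAt ℝ 2 F z)
    (u v : ℝ × ℝ × ℝ) :
    fderiv ℝ (fun y => fderiv ℝ F y u) z v = fderiv ℝ (fderiv ℝ F) z v u := by
  have hd : DifferentiableAt ℝ (fderiv ℝ F) z :=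
    (hF.fderiv_right (m := 1) (by norm_num)).differentiableAt (by norm_num)
  have h5 := hd.hasFDerivAt.clm_apply (hasFDerivAt_const u z)
  rw [h5.fderiv, ContinuousLinearMap.comp_zero, zero_add]
  rfl

theorem KS_lap {F : ℝ × ℝ × ℝ → ℝ} {z : ℝ × ℝ × ℝ} (hF : ContDiffAt ℝ 2 F z) :
    lap F z = fderiv ℝ (fderiv ℝ F) z (0, 1, 0) (0, 1, 0) +
      fderiv ℝ (fderiv ℝ F) z (0, 0, 1) (0, 0, 1) := by
  have h1 : lap F z = fderiv ℝ (fun y => fderiv ℝ F y (0, 1, 0)) z (0, 1, 0) +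
      fderiv ℝ (fun y => fderiv ℝ F y (0, 0, 1)) z (0, 0, 1) := rfl
  rw [h1, KS_dir hF, KS_dir hF]

theorem KS_ind {E : Type*} [Zero E] (A : Set (ℝ × ℝ × ℝ)) (F : ℝ × ℝ × ℝ → E)
    (z : ℝ × ℝ × ℝ) (h : z ∈ A) : A.indicator F z = F z := indicator_of_mem h F

/-- gluing for one function -/
theorem KS_glue (hKT : KT_stmt) (hGL : GL_stmt) {R ρ α β : ℝ} (hR : 0 < R)
    {F : ℝ × ℝ × ℝ → ℝ} (hF : ContDiff ℝ 2 F)
    (h0 : ∀ t ∈ Ioo α β, ∀ q ∈ Circ R, F (t, q) = 0 ∧ dx F (t, q) = 0 ∧ dy F (t, q) = 0 ∧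
      lap F (t, q) = 0) :
    ContDiffOn ℝ 2 ((KS_A R).indicator F) (Ioo α β ×ˢ KS_O ρ) ∧
    (∀ z ∈ Ioo α β ×ˢ KS_O ρ, z ∈ KS_A R → (KS_A R).indicator F z = F z ∧
      dx ((KS_A R).indicator F) z = dx F z ∧ dy ((KS_A R).indicator F) z = dy F z ∧
      lap ((KS_A R).indicator F) z = lap F z ∧
      ∀ ν, heat ν ((KS_A R).indicator F) z = heat ν F z) ∧
    (∀ z ∈ Ioo α β ×ˢ KS_O ρ, z ∉ KS_A R → (KS_A R).indicator F z = 0 ∧
      dx ((KS_A R).indicator F) z = 0 ∧ dy ((KS_A R).indicator F) z = 0 ∧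
      lap ((KS_A R).indicator F) z = 0 ∧
      ∀ ν, heat ν ((KS_A R).indicator F) z = 0) := by
  have hO : IsOpen (Ioo α β ×ˢ KS_O ρ) :=
    isOpen_Ioo.prod (isOpen_lt continuous_const (by fun_prop))
  have hkt := hKT R α β F hR hF h0
  obtain ⟨g1, g2, g3⟩ := hGL (KS_A R) (Ioo α β ×ˢ KS_O ρ) F (KS_Ao R) hO hF (by
    rintro z ⟨hz1, hz2⟩
    obtain ⟨t, q⟩ := z
    exact hkt t hz2.1 q (KS_fr R hz1))
  refine ⟨g1, ?_, ?_⟩
  · intro z hz hA
    have hc : ContDiffAt ℝ 2 ((KS_A R).indicator F) z := g1.contDiffAt (hO.mem_nhds hz)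
    have e1 : fderiv ℝ ((KS_A R).indicator F) z = fderiv ℝ F z := by
      rw [g2 z hz, indicator_of_mem hA]
    have e2 : fderiv ℝ (fderiv ℝ ((KS_A R).indicator F)) z = fderiv ℝ (fderiv ℝ F) z := by
      rw [g3 z hz, indicator_of_mem hA]
    have e3 : lap ((KS_A R).indicator F) z = lap F z := by
      rw [KS_lap hc, KS_lap hF.contDiffAt, e2]
    refine ⟨indicator_of_mem hA _, ?_, ?_, e3, ?_⟩
    · unfold dx; rw [e1]
    · unfold dy; rw [e1]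
    · intro ν
      have h1 : heat ν ((KS_A R).indicator F) z =
          dt ((KS_A R).indicator F) z - ν * lap ((KS_A R).indicator F) z := rfl
      have h2 : heat ν F z = dt F z - ν * lap F z := rfl
      rw [h1, h2, e3]
      unfold dt
      rw [e1]
  · intro z hz hA
    have hc : ContDiffAt ℝ 2 ((KS_A R).indicator F) z := g1.contDiffAt (hO.mem_nhds hz)
    have e1 : fderiv ℝ ((KS_A R).indicator F) z = 0 := by
      rw [g2 z hz, indicator_of_notMem hA]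
    have e2 : fderiv ℝ (fderiv ℝ ((KS_A R).indicator F)) z = 0 := by
      rw [g3 z hz, indicator_of_notMem hA]
    have e3 : lap ((KS_A R).indicator F) z = 0 := by
      rw [KS_lap hc, e2]
      simp
    refine ⟨indicator_of_notMem hA _, ?_, ?_, e3, ?_⟩
    · unfold dx; rw [e1]; rfl
    · unfold dy; rw [e1]; rfl
    · intro ν
      have h1 : heat ν ((KS_A R).indicator F) z =
          dt ((KS_A R).indicator F) z - ν * lap ((KS_A R).indicator F) z := rfl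
      rw [h1, e3]
      unfold dt
      rw [e1]
      simp

theorem KS (hKT : KT_stmt) (hGL : GL_stmt) (hKR : KR_stmt) (hZI : ZI_stmt) : KS_stmt := by
  intro R ρ α β ν K v w ζ hρ hρR hν hv hw hζ h0 hineq
  have hR : 0 < R := lt_of_le_of_lt hρ hρR
  obtain ⟨o1, o2, -, -, -⟩ := hKR ρ R hρ hρR
  obtain ⟨v1, v2, v3⟩ := KS_glue (ρ := ρ) hKT hGL hR hv (h0 v (by simp))
  obtain ⟨w1, w2, w3⟩ := KS_glue (ρ := ρ) hKT hGL hR hw (h0 w (by simp))
  obtain ⟨z1, z2, z3⟩ := KS_glue (ρ := ρ) hKT hGL hR hζ (h0 ζ (by simp))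
  have key := hZI (KS_O ρ) α β ν K ((KS_A R).indicator v) ((KS_A R).indicator w)
    ((KS_A R).indicator ζ) o1 o2 hν v1 w1 z1 (by
      intro t ht q hq
      have hz : ((t, q) : ℝ × ℝ × ℝ) ∈ Ioo α β ×ˢ KS_O ρ := ⟨ht, hq⟩
      by_cases hA : ((t, q) : ℝ × ℝ × ℝ) ∈ KS_A R
      · obtain ⟨a1, a2, a3, a4, a5⟩ := v2 _ hz hA
        obtain ⟨b1, b2, b3, b4, b5⟩ := w2 _ hz hA
        obtain ⟨c1, c2, c3, c4, c5⟩ := z2 _ hz hA
        unfold XX
        rw [a1, a2, a3, a4, b1, b2, b3, b4, c1, c2, c3, c5]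
        exact hineq t ht q ⟨hq, hA⟩
      · obtain ⟨a1, a2, a3, a4, a5⟩ := v3 _ hz hA
        obtain ⟨b1, b2, b3, b4, b5⟩ := w3 _ hz hA
        obtain ⟨c1, c2, c3, c4, c5⟩ := z3 _ hz hA
        unfold XX
        rw [a1, a2, a3, a4, b1, b2, b3, b4, c1, c2, c3, c5]
        simp) (by
      refine ⟨{q | R ^ 2 < q.1 ^ 2 + q.2 ^ 2}, isOpen_lt continuous_const (by fun_prop), ?_, ?_, ?_⟩
      · refine ⟨(R + 1, 0), ?_⟩
        show R ^ 2 < (R + 1) ^ 2 + 0 ^ 2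
        nlinarith
      · intro q hq
        have h1 : R ^ 2 < q.1 ^ 2 + q.2 ^ 2 := hq
        show ρ ^ 2 < q.1 ^ 2 + q.2 ^ 2
        nlinarith
      · intro t _ q hq
        have h1 : R ^ 2 < q.1 ^ 2 + q.2 ^ 2 := hq
        have h2 : ((t, q) : ℝ × ℝ × ℝ) ∉ KS_A R := by
          intro h3
          have h4 : q.1 ^ 2 + q.2 ^ 2 < R ^ 2 := h3
          linarith
        exact ⟨indicator_of_notMem h2 _, indicator_of_notMem h2 _, indicator_of_notMem h2 _⟩)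
  intro t ht q hq
  have hA : ((t, q) : ℝ × ℝ × ℝ) ∈ KS_A R := hq.2
  obtain ⟨k1, k2, k3⟩ := key t ht q hq.1
  rw [indicator_of_mem hA] at k1 k2 k3
  exact ⟨k1, k2, k3⟩

end NS
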