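import Pool.Agent.helper29.NS.SpecC
import Pool.Agent.helper58.NS.IT

/-!
# Project ns, module KT: zero Cauchy data on the circle
-/

namespace NS

open MeasureTheory Filter Topology Set

/-- linear maps are determined by their values on the basis -/
theorem KT_ext {E : Type*} [NormedAddCommGroup E] [NormedSpace ℝ E] (f : ℝ × ℝ × ℝ →L[ℝ] E)
    (h1 : f (1, 0, 0) = 0) (h2 : f (0, 1, 0) = 0) (h3 : f (0, 0, 1) = 0) : f = 0 := by
  refine ContinuousLinearMap.ext fun v => ?_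
  obtain ⟨a, b, c⟩ := v
  have e : ((a, b, c) : ℝ × ℝ × ℝ) = a • (1, 0, 0) + b • (0, 1, 0) + c • (0, 0, 1) := by
    simp
  rw [e, map_add, map_add, map_smul, map_smul, map_smul, h1, h2, h3]
  simp

/-- time curve -/
theorem KT_time {E : Type*} [NormedAddCommGroup E] [NormedSpace ℝ E] {G : ℝ × ℝ × ℝ → E}
    {α β t : ℝ} {q : ℝ × ℝ} (ht : t ∈ Ioo α β) (hG : DifferentiableAt ℝ G (t, q))
    (h0 : ∀ t ∈ Ioo α β, G (t, q) = 0) : fderiv ℝ G (t, q) (1, 0, 0) = 0 := by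
  have hγ : HasDerivAt (fun s : ℝ => ((s, q) : ℝ × ℝ × ℝ)) (1, 0, 0) t := by
    have h1 : HasDerivAt (fun s : ℝ => s) 1 t := hasDerivAt_id t
    have h2 : HasDerivAt (fun _ : ℝ => q) 0 t := hasDerivAt_const t q
    exact h1.prodMk h2
  have h3 : HasDerivAt (fun s : ℝ => G (s, q)) (fderiv ℝ G (t, q) (1, 0, 0)) t :=
    HasFDerivAt.comp_hasDerivAt (f := fun s : ℝ => ((s, q) : ℝ × ℝ × ℝ)) t hG.hasFDerivAt hγ
  have h4 : (fun s : ℝ => G (s, q)) =ᶠ[𝓝 t] fun _ => 0 := by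
    filter_upwards [isOpen_Ioo.mem_nhds ht] with s hs
    exact h0 s hs
  have h5 : HasDerivAt (fun s : ℝ => G (s, q)) 0 t :=
    (hasDerivAt_const t (0 : E)).congr_of_eventuallyEq h4
  exact h3.unique h5

/-- rotation curve -/
theorem KT_rot {E : Type*} [NormedAddCommGroup E] [NormedSpace ℝ E] {G : ℝ × ℝ × ℝ → E}
    {R t : ℝ} {q : ℝ × ℝ} (hq : q ∈ Circ R) (hG : DifferentiableAt ℝ G (t, q))
    (h0 : ∀ q ∈ Circ R, G (t, q) = 0) : fderiv ℝ G (t, q) (0, -q.2, q.1) = 0 := by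
  set γ : ℝ → ℝ × ℝ × ℝ := fun s => (t, Real.cos s * q.1 - Real.sin s * q.2,
    Real.sin s * q.1 + Real.cos s * q.2) with hγdef
  have hγ : HasDerivAt γ (0, -q.2, q.1) 0 := by
    have h1 : HasDerivAt (fun _ : ℝ => t) 0 0 := hasDerivAt_const 0 t
    have hc : HasDerivAt Real.cos 0 0 := by simpa using Real.hasDerivAt_cos 0
    have hs : HasDerivAt Real.sin 1 0 := by simpa using Real.hasDerivAt_sin 0
    have h2 : HasDerivAt (fun s : ℝ => Real.cos s * q.1 - Real.sin s * q.2) (-q.2) 0 := by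
      have := (hc.mul_const q.1).fun_sub (hs.mul_const q.2)
      simpa using this
    have h3 : HasDerivAt (fun s : ℝ => Real.sin s * q.1 + Real.cos s * q.2) q.1 0 := by
      have := (hs.mul_const q.1).fun_add (hc.mul_const q.2)
      simpa using this
    exact h1.prodMk (h2.prodMk h3)
  have hγ0 : γ 0 = (t, q) := by
    rw [hγdef]
    simp
  have hG' : HasFDerivAt G (fderiv ℝ G (t, q)) (γ 0) := by
    rw [hγ0]
    exact hG.hasFDerivAt
  have h3 : HasDerivAt (fun s : ℝ => G (γ s)) (fderiv ℝ G (t, q) (0, -q.2, q.1)) 0 :=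
    HasFDerivAt.comp_hasDerivAt (f := γ) 0 hG' hγ
  have h4 : (fun s : ℝ => G (γ s)) = fun _ => 0 := by
    funext s
    apply h0
    have hq' : q.1 ^ 2 + q.2 ^ 2 = R ^ 2 := hq
    show (Real.cos s * q.1 - Real.sin s * q.2) ^ 2 + (Real.sin s * q.1 + Real.cos s * q.2) ^ 2
      = R ^ 2
    rw [← hq']
    have := Real.sin_sq_add_cos_sq s
    linear_combination (q.1 ^ 2 + q.2 ^ 2) * this
  rw [h4] at h3
  exact h3.unique (hasDerivAt_const 0 (0 : E))

theorem KT : KT_stmt := by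
  intro R α β F hR hF hyp
  have hF1 : Differentiable ℝ F := hF.differentiable (by norm_num)
  have hG1 : Differentiable ℝ (fderiv ℝ F) :=
    (hF.fderiv_right (m := 1) (by norm_num)).differentiable (by norm_num)
  have key1 : ∀ t ∈ Ioo α β, ∀ q ∈ Circ R, fderiv ℝ F (t, q) = 0 := by
    intro t ht q hq
    obtain ⟨h1, h2, h3, h4⟩ := hyp t ht q hq
    refine KT_ext _ ?_ h2 h3
    exact KT_time ht (hF1 _) fun t ht => (hyp t ht q hq).1
  intro t ht q hq
  obtain ⟨h1, h2, h3, h4⟩ := hyp t ht q hq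
  refine ⟨h1, key1 t ht q hq, ?_⟩
  set B := fderiv ℝ (fderiv ℝ F) (t, q) with hB
  have b1 : B (1, 0, 0) = 0 := KT_time ht (hG1 _) fun t ht => key1 t ht q hq
  have b2 : B (0, -q.2, q.1) = 0 := KT_rot hq (hG1 _) fun q hq => key1 t ht q hq
  have hs : IsSymmSndFDerivAt ℝ F (t, q) := hF.contDiffAt.isSymmSndFDerivAt (by simp)
  have hsym : ∀ u v, B u v = B v u := fun u v => hs u v
  have hdir : ∀ u v : ℝ × ℝ × ℝ, fderiv ℝ (fun y => fderiv ℝ F y u) (t, q) v = B v u := by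
    intro u v
    have h5 := (hG1 (t, q)).hasFDerivAt.clm_apply (hasFDerivAt_const u (t, q))
    rw [h5.fderiv, ContinuousLinearMap.comp_zero, zero_add]
    rfl
  have e1 : ((0, -q.2, q.1) : ℝ × ℝ × ℝ) = (-q.2) • (0, 1, 0) + q.1 • (0, 0, 1) := by simp
  rw [e1, map_add, map_smul, map_smul] at b2
  have hlap : B (0, 1, 0) (0, 1, 0) + B (0, 0, 1) (0, 0, 1) = 0 := by
    have h5 : lap F (t, q) = fderiv ℝ (fun y => fderiv ℝ F y (0, 1, 0)) (t, q) (0, 1, 0) +
        fderiv ℝ (fun y => fderiv ℝ F y (0, 0, 1)) (t, q) (0, 0, 1) := rfl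
    rw [h4, hdir, hdir] at h5
    exact h5.symm
  have c1 : -q.2 * B (0, 1, 0) (0, 1, 0) + q.1 * B (0, 0, 1) (0, 1, 0) = 0 := by
    have := congrArg (fun f : ℝ × ℝ × ℝ →L[ℝ] ℝ => f (0, 1, 0)) b2
    simpa using this
  have c2 : -q.2 * B (0, 1, 0) (0, 0, 1) + q.1 * B (0, 0, 1) (0, 0, 1) = 0 := by
    have := congrArg (fun f : ℝ × ℝ × ℝ →L[ℝ] ℝ => f (0, 0, 1)) b2
    simpa using this
  have c3 := hsym (0, 1, 0) (0, 0, 1)
  have hq' : q.1 ^ 2 + q.2 ^ 2 = R ^ 2 := hq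
  have hR2 : 0 < R ^ 2 := by positivity
  set a := B (0, 1, 0) (0, 1, 0) with ha
  set d := B (0, 0, 1) (0, 0, 1) with hd
  set c := B (0, 0, 1) (0, 1, 0) with hc
  rw [c3] at c2
  have ha0 : a = 0 := by
    have h6 : R ^ 2 * a = 0 := by
      rw [← hq']
      linear_combination (-q.2) * c1 + (-q.1) * c2 + q.1 ^ 2 * hlap
    rcases mul_eq_zero.1 h6 with h7 | h7
    · exact absurd h7 hR2.ne'
    · exact h7
  have hd0 : d = 0 := by linarith
  have hc0 : c = 0 := by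
    rw [ha0] at c1
    rw [hd0] at c2
    have h6 : R ^ 2 * c = 0 := by
      rw [← hq']
      linear_combination q.1 * c1 - q.2 * c2
    rcases mul_eq_zero.1 h6 with h7 | h7
    · exact absurd h7 hR2.ne'
    · exact h7
  refine KT_ext _ b1 ?_ ?_
  · refine KT_ext _ ?_ ha0 ?_
    · rw [hsym, b1]; rfl
    · rw [c3]; exact hc0
  · refine KT_ext _ ?_ hc0 hd0
    rw [hsym, b1]; rfl

end NS
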