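import Pool.Agent.helper29.NS.SpecD
import Pool.Agent.helper58.NS.IT

/-!
# Project ns, module LF: the distance to the origin is constant on the boundary near `c`
-/

namespace NS

open MeasureTheory Filter Topology Set

theorem LF_lin (ax ay bx b2 u1 u2 x y : ℝ) (h1 : u1 * ax + u2 * ay = 0)
    (h2 : u1 * bx + u2 * b2 = 0) (h3 : y * ax - x * ay = 0) (h4 : y * bx - x * b2 = 0)
    (h5 : bx - ay ≠ 0) : x * u1 + y * u2 = 0 := by
  have h6 : (bx - ay) * (x * u1 + y * u2) = 0 := by
    linear_combination x * h2 + u2 * h4 - y * h1 + u1 * h3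
  rcases mul_eq_zero.1 h6 with h7 | h7
  · exact absurd h7 h5
  · exact h7

theorem LF_cont {Ω : Set (ℝ × ℝ)} {c p : ℝ × ℝ} {ε t : ℝ} {F : ℝ × ℝ × ℝ → ℝ}
    (hF : Continuous F) (h0 : ∀ q ∈ Ω ∩ Dsc c ε, F (t, q) = 0) (hp : p ∈ frontier Ω)
    (hpc : p ∈ Dsc c ε) : F (t, p) = 0 := by
  have hD : IsOpen (Dsc c ε) := isOpen_lt (by fun_prop) continuous_const
  have h1 : p ∈ closure (Ω ∩ Dsc c ε) := by
    have h2 : closure Ω ∩ Dsc c ε ⊆ closure (Ω ∩ Dsc c ε) := by
      rw [inter_comm, inter_comm Ω]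
      exact hD.inter_closure
    exact h2 ⟨frontier_subset_closure hp, hpc⟩
  have h3 : closure (Ω ∩ Dsc c ε) ⊆ {q | F (t, q) = 0} := by
    apply closure_minimal h0
    exact isClosed_eq (hF.comp (by fun_prop)) continuous_const
  exact h3 h1

theorem LF (hCH : CH_stmt) (hTG : TG_stmt) : LF_stmt := by
  intro Ω ν a b m n c θ δ t ε f hΩ hDM hC hf hε hL hv
  obtain ⟨η1, hη1, -, hfr⟩ := hCH Ω c θ δ f hΩ hC hf
  have ha1 : ContDiff ℝ 2 a := hDM.ca.of_le (by norm_num)
  have hb1 : ContDiff ℝ 2 b := hDM.cb.of_le (by norm_num)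
  obtain ⟨η2, hη2, hta⟩ := hTG Ω c θ δ f hΩ hC univ univ_mem a (ha1.differentiable (by norm_num))
    fun t q hq => (hDM.bc t q hq.1).1
  obtain ⟨η3, hη3, htb⟩ := hTG Ω c θ δ f hΩ hC univ univ_mem b (hb1.differentiable (by norm_num))
    fun t q hq => (hDM.bc t q hq.1).2.1
  have hfd : Differentiable ℝ f := hC.smooth.differentiable (by norm_num)
  have hfc : Continuous f := hfd.continuous
  have cax := (IT_dx1 ha1).continuous
  have cay := (IT_dy1 ha1).continuous
  have cbx := (IT_dx1 hb1).continuous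
  have cby := (IT_dy1 hb1).continuous
  have ca := ha1.continuous
  have cb := hb1.continuous
  have hpc : Continuous (fun s => pt θ c s (f s)) := by
    unfold pt
    fun_prop
  have hp0 : pt θ c 0 (f 0) = c := by
    rw [hC.f0]
    unfold pt
    simp
  -- small s
  have h1 : ∀ᶠ s in 𝓝 (0 : ℝ), pt θ c s (f s) ∈ Dsc c ε := by
    have hD : IsOpen (Dsc c ε) := isOpen_lt (by fun_prop) continuous_const
    refine hpc.continuousAt.eventually (hD.mem_nhds ?_)
    show pt θ c 0 (f 0) ∈ Dsc c ε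
    rw [hp0]
    show (c.1 - c.1) ^ 2 + (c.2 - c.2) ^ 2 < ε ^ 2
    have := pow_pos hε 2
    simpa using this
  have cv : Continuous (fun q : ℝ × ℝ => vort a b (t, q)) := by
    unfold vort
    fun_prop
  have h2 : ∀ᶠ s in 𝓝 (0 : ℝ), vort a b (t, pt θ c s (f s)) ≠ 0 := by
    have : Continuous (fun s => vort a b (t, pt θ c s (f s))) := cv.comp hpc
    refine this.continuousAt.eventually_ne ?_
    rw [hp0]
    exact hv
  obtain ⟨η4, hη4, h4⟩ := Metric.eventually_nhds_iff.1 (h1.and h2)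
  set η := min (min η1 η2) (min η3 η4) with hηdef
  have hη : 0 < η := lt_min (lt_min hη1 hη2) (lt_min hη3 hη4)
  have e1 : η ≤ η1 := (min_le_left _ _).trans (min_le_left _ _)
  have e2 : η ≤ η2 := (min_le_left _ _).trans (min_le_right _ _)
  have e3 : η ≤ η3 := (min_le_right _ _).trans (min_le_left _ _)
  have e4 : η ≤ η4 := (min_le_right _ _).trans (min_le_right _ _)
  refine ⟨η, hη, ?_⟩
  -- the derivative of the distance
  have hder : ∀ s, |s| < η → HasDerivAt (fun s => (pt θ c s (f s)).1 ^ 2 + (pt θ c s (f s)).2 ^ 2)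
      0 s := by
    intro s hs
    have hfs : HasDerivAt f (deriv f s) s := (hfd s).hasDerivAt
    have d1 : HasDerivAt (fun s => (pt θ c s (f s)).1) (Real.cos θ - deriv f s * Real.sin θ) s := by
      have := (((hasDerivAt_id s).mul_const (Real.cos θ)).const_add c.1).fun_sub
        (hfs.mul_const (Real.sin θ))
      simpa [pt] using this
    have d2 : HasDerivAt (fun s => (pt θ c s (f s)).2) (Real.sin θ + deriv f s * Real.cos θ) s := by
      have := (((hasDerivAt_id s).mul_const (Real.sin θ)).const_add c.2).fun_add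
        (hfs.mul_const (Real.cos θ))
      simpa [pt] using this
    have d3 := (d1.fun_pow 2).fun_add (d2.fun_pow 2)
    have hfrs := (hfr s (lt_of_lt_of_le hs e1)).1
    obtain ⟨hD, hne⟩ := h4 (show dist s 0 < η4 by
      rw [Real.dist_eq, sub_zero]; exact lt_of_lt_of_le hs e4)
    have ta := (hta t s (lt_of_lt_of_le hs e2)).2
    have tb := (htb t s (lt_of_lt_of_le hs e3)).2
    have la : LA a b (t, pt θ c s (f s)) = 0 :=
      LF_cont (by unfold LA; fun_prop) (fun q hq => (hL q hq).1) hfrs hD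
    have lb : LB a b (t, pt θ c s (f s)) = 0 :=
      LF_cont (by unfold LB; fun_prop) (fun q hq => (hL q hq).2) hfrs hD
    obtain ⟨za, zb, -, -⟩ := hDM.bc t _ hfrs
    unfold LA at la
    unfold LB at lb
    rw [zb] at la
    rw [za] at lb
    have key := LF_lin _ _ _ _ _ _ (pt θ c s (f s)).1 (pt θ c s (f s)).2 ta tb
      (by simpa using la) (by simpa using lb) hne
    have hval : ((2 : ℕ) : ℝ) * (pt θ c s (f s)).1 ^ (2 - 1) *
        (Real.cos θ - deriv f s * Real.sin θ) +
      ((2 : ℕ) : ℝ) * (pt θ c s (f s)).2 ^ (2 - 1) * (Real.sin θ + deriv f s * Real.cos θ) = 0 := by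
      norm_num
      linear_combination 2 * key
    rw [hval] at d3
    exact d3
  intro s hs
  have hopen : IsOpen (Ioo (-η) η) := isOpen_Ioo
  have hmem : ∀ s : ℝ, s ∈ Ioo (-η) η ↔ |s| < η := fun s => abs_lt.symm
  have hc := hopen.is_const_of_deriv_eq_zero (isPreconnected_Ioo)
    (f := fun s => (pt θ c s (f s)).1 ^ 2 + (pt θ c s (f s)).2 ^ 2)
    (fun s hs => (hder s ((hmem s).1 hs)).differentiableAt.differentiableWithinAt)
    (fun s hs => (hder s ((hmem s).1 hs)).deriv) ((hmem s).2 hs)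
    ((hmem 0).2 (by rw [abs_zero]; exact hη))
  rw [hc, hp0]

end NS
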