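import Pool.Agent.helper42.NS.Spec2

/-!
# Row LB: eigenvectors over a field of large degree
-/

set_option autoImplicit false

namespace Pool.Agent.helper42.NS

open Polynomial Matrix

theorem LB_mulX {t : ℕ} (p : ℕ) (P : Pt) [Algebra (ZMod p) (KP P)]
    (H : Matrix (Fin t) (Fin t) ℤ) (u : Fin t → KP P)
    (hu : u ∈ EigK (KP P) (lamP P) H) (v : KP P)
    (hv : v ∈ Submodule.span (ZMod p) (Set.range u)) :
    lamP P * v ∈ Submodule.span (ZMod p) (Set.range u) := by
  induction hv using Submodule.span_induction with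
  | mem x hx =>
    obtain ⟨i, rfl⟩ := hx
    rw [← (mem_EigK.1 hu) i]
    apply Submodule.sum_mem
    intro j _
    have h1 : ((H i j : ℤ) : KP P) * u j = ((H i j : ℤ) : ZMod p) • u j := by
      rw [Algebra.smul_def, map_intCast]
    rw [h1]
    exact Submodule.smul_mem _ _ (Submodule.subset_span ⟨j, rfl⟩)
  | zero => rw [mul_zero]; exact Submodule.zero_mem _
  | add x y _ _ hx hy => rw [mul_add]; exact Submodule.add_mem _ hx hy
  | smul a x _ hx => rw [mul_smul_comm]; exact Submodule.smul_mem _ _ hx

theorem LB_mul {t : ℕ} (p : ℕ) (P : Pt) [Algebra (ZMod p) (KP P)]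
    (H : Matrix (Fin t) (Fin t) ℤ) (u : Fin t → KP P)
    (hu : u ∈ EigK (KP P) (lamP P) H) (f : ℤ[X]) (v : KP P)
    (hv : v ∈ Submodule.span (ZMod p) (Set.range u)) :
    Ideal.Quotient.mk P.asIdeal f * v ∈ Submodule.span (ZMod p) (Set.range u) := by
  induction f using Polynomial.induction_on with
  | C a =>
    have h1 : (Ideal.Quotient.mk P.asIdeal (C a)) = ((a : ℤ) : KP P) := by
      have h2 : (C a : ℤ[X]) = ((a : ℤ) : ℤ[X]) := by simp
      rw [h2, map_intCast]
    have h3 : ((a : ℤ) : KP P) * v = ((a : ℤ) : ZMod p) • v := by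
      rw [Algebra.smul_def, map_intCast]
    rw [h1, h3]
    exact Submodule.smul_mem _ _ hv
  | add f g hf hg => rw [map_add, add_mul]; exact Submodule.add_mem _ hf hg
  | monomial n a ih =>
    have h1 : Ideal.Quotient.mk P.asIdeal (C a * X ^ (n + 1)) * v =
        lamP P * (Ideal.Quotient.mk P.asIdeal (C a * X ^ n) * v) := by
      rw [lamP, ← mul_assoc, ← map_mul]
      congr 2
      ring
    rw [h1]
    exact LB_mulX p P H u hu _ ih

theorem LB (_ : FIN_stmt) : LB_stmt := by
  intro t p d P H u hp hA hq hu hu0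
  haveI := Fact.mk hp
  haveI : P.asIdeal.IsMaximal := P.isMaximal
  haveI : Nontrivial (KP P) := Ideal.Quotient.nontrivial_iff.2 P.isMaximal.ne_top
  have hp0 : ((p : ℕ) : KP P) = 0 := by
    have h1 : Ideal.Quotient.mk P.asIdeal ((p : ℕ) : ℤ[X]) = 0 :=
      Ideal.Quotient.eq_zero_iff_mem.2 hA
    rwa [map_natCast] at h1
  haveI : CharP (KP P) p := (CharP.charP_iff_prime_eq_zero hp).2 hp0
  letI : Algebra (ZMod p) (KP P) := ZMod.algebra (KP P) p
  have hfin : Finite (KP P) := by
    apply Nat.finite_of_card_ne_zero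
    rw [show Nat.card (KP P) = p ^ d from hq]
    exact pow_ne_zero _ hp.pos.ne'
  haveI : Module.Finite (ZMod p) (KP P) := Module.Finite.of_finite
  have hrank : Module.finrank (ZMod p) (KP P) = d := by
    have h1 := Module.natCard_eq_pow_finrank (K := ZMod p) (V := KP P)
    rw [Nat.card_zmod, show Nat.card (KP P) = p ^ d from hq] at h1
    exact (Nat.pow_right_injective hp.two_le h1).symm
  have htop : Submodule.span (ZMod p) (Set.range u) = ⊤ := by
    rw [Submodule.eq_top_iff']
    intro x
    obtain ⟨i, hi⟩ : ∃ i, u i ≠ 0 := by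
      by_contra h
      push Not at h
      exact hu0 (funext h)
    obtain ⟨y, hy⟩ := Ideal.Quotient.exists_inv hi
    obtain ⟨f, hf⟩ := Ideal.Quotient.mk_surjective (x * y)
    have h1 := LB_mul p P H u hu f (u i) (Submodule.subset_span ⟨i, rfl⟩)
    rw [hf] at h1
    have h2 : x * y * u i = x := by
      rw [mul_assoc, mul_comm y, hy, mul_one]
    rwa [h2] at h1
  obtain ⟨κ, a, ha, hsp, hli⟩ := exists_linearIndependent' (ZMod p) u
  haveI : Finite κ := Finite.of_injective a ha
  letI : Fintype κ := Fintype.ofFinite κ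
  have hκ : Fintype.card κ = d := by
    have h1 := finrank_span_eq_card hli
    rw [hsp, htop, finrank_top, hrank] at h1
    exact h1.symm
  classical
  -- restriction to the complement of the basis
  have hinj : Set.InjOn (fun (b : Fin t → Bool) (j : {j : Fin t // j ∉ Set.range a}) => b j)
      {b : Fin t → Bool | dotb b u = 0} := by
    intro b hb b' hb' hbb
    have hb1 : dotb b u = 0 := hb
    have hb2 : dotb b' u = 0 := hb'
    have h1 : ∀ j, j ∉ Set.range a → b j = b' j := fun j hj => congrFun hbb ⟨j, hj⟩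
    have h2 : ∑ j, (((if b j then 1 else 0) - (if b' j then 1 else 0) : ZMod p)) • u j = 0 := by
      have h3 : ∑ j, (((if b j then 1 else 0) - (if b' j then 1 else 0) : ZMod p)) • u j =
          dotb b u - dotb b' u := by
        unfold dotb
        rw [← Finset.sum_sub_distrib]
        apply Finset.sum_congr rfl
        intro j _
        cases b j <;> cases b' j <;> simp
      rw [h3, hb1, hb2, sub_zero]
    have h4 : ∑ i : κ, (((if b (a i) then 1 else 0) - (if b' (a i) then 1 else 0) : ZMod p)) •
        (u ∘ a) i = 0 := by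
      rw [← h2]
      have h5 : ∑ j ∈ (Finset.univ : Finset κ).map ⟨a, ha⟩,
          (((if b j then 1 else 0) - (if b' j then 1 else 0) : ZMod p)) • u j =
          ∑ j, (((if b j then 1 else 0) - (if b' j then 1 else 0) : ZMod p)) • u j := by
        apply Finset.sum_subset (Finset.subset_univ _)
        intro j _ hj
        have h6 : b j = b' j := by
          apply h1
          rintro ⟨i, hi⟩
          exact hj (Finset.mem_map.2 ⟨i, Finset.mem_univ _, hi⟩)
        rw [h6, sub_self, zero_smul]
      rw [← h5, Finset.sum_map]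
      rfl
    have h7 := Fintype.linearIndependent_iff.1 hli _ h4
    funext j
    by_cases hj : j ∈ Set.range a
    · obtain ⟨i, rfl⟩ := hj
      have h8 := h7 i
      cases h9 : b (a i) <;> cases h10 : b' (a i) <;> rw [h9, h10] at h8 <;> simp at h8 ⊢
    · exact h1 j hj
  have h1 := Set.ncard_le_ncard_of_injOn (t := Set.univ) _ (fun _ _ => Set.mem_univ _) hinj
    Set.finite_univ
  rw [Set.ncard_univ, Nat.card_eq_fintype_card, Fintype.card_fun, Fintype.card_bool,
    Fintype.card_subtype_compl, Fintype.card_fin] at h1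
  have h2 : Fintype.card {j : Fin t // j ∈ Set.range a} = d := by
    rw [← hκ]
    exact Set.card_range_of_injective ha
  rw [h2] at h1
  have h3 : d ≤ t := by
    rw [← hκ]
    have h4 := Fintype.card_le_of_injective a ha
    rwa [Fintype.card_fin] at h4
  calc Set.ncard {b : Fin t → Bool | dotb b u = 0} * 2 ^ d ≤ 2 ^ (t - d) * 2 ^ d :=
        Nat.mul_le_mul_right _ h1
    _ = 2 ^ t := by rw [← pow_add, Nat.sub_add_cancel h3]

end Pool.Agent.helper42.NS
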