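import Pool.Agent.helper42.NS.Spec2
import Pool.Agent.helper38.NS.CNT

/-!
# Row POT: potential functions
-/

set_option autoImplicit false

namespace Pool.Agent.helper42.NS

open Polynomial Matrix

open scoped Classical in
/-- the graphs on `Fin t` all of whose segments satisfy `Q` -/
noncomputable def POT_s (Q : ∀ t : ℕ, Matrix (Fin t) (Fin t) ℤ → Prop) (t : ℕ) :
    Finset (Matrix (Fin t) (Fin t) ℤ) :=
  ((CNT_fin t).toFinset).filter (fun H => Hered Q t H)

theorem POT_mem {Q : ∀ t : ℕ, Matrix (Fin t) (Fin t) ℤ → Prop} {t : ℕ}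
    {H : Matrix (Fin t) (Fin t) ℤ} : H ∈ POT_s Q t ↔ IsGr H ∧ Hered Q t H := by
  classical
  unfold POT_s
  rw [Finset.mem_filter, Set.Finite.mem_toFinset]
  exact Iff.rfl

theorem POT_tl {t : ℕ} {H : Matrix (Fin (t + 1)) (Fin (t + 1)) ℤ} (hH : IsGr H) :
    IsGr (tl H) :=
  ⟨fun i j => hH.1 i.succ j.succ, fun i => hH.2.1 i.succ, fun i j => hH.2.2 i.succ j.succ⟩

theorem POT_bord {t : ℕ} {H : Matrix (Fin (t + 1)) (Fin (t + 1)) ℤ} (hH : IsGr H) :
    bord (tl H) (ind fun j => decide (H 0 j.succ = 1)) = H := by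
  ext i j
  refine Fin.cases ?_ (fun i => ?_) i
  · refine Fin.cases ?_ (fun j => ?_) j
    · rw [bord_zero_zero]
      exact (hH.2.1 0).symm
    · rw [bord_zero_succ]
      unfold ind
      rcases hH.1 0 j.succ with h | h <;> simp [h]
  · refine Fin.cases ?_ (fun j => ?_) j
    · rw [bord_succ_zero, hH.2.2 i.succ 0]
      unfold ind
      rcases hH.1 0 i.succ with h | h <;> simp [h]
    · rw [bord_succ_succ]
      rfl

open scoped Classical in
theorem POT_sum (Q : ∀ t : ℕ, Matrix (Fin t) (Fin t) ℤ → Prop) (t : ℕ)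
    (f : Matrix (Fin (t + 1)) (Fin (t + 1)) ℤ → ℝ) :
    ∑ H ∈ POT_s Q (t + 1), f H = ∑ H ∈ POT_s Q t,
      ∑ b ∈ Finset.univ.filter (fun b : Fin t → Bool => Hered Q (t + 1) (bord H (ind b))),
        f (bord H (ind b)) := by
  rw [Finset.sum_sigma']
  symm
  refine Finset.sum_bij (fun p _ => bord p.1 (ind p.2)) ?_ ?_ ?_ ?_
  · rintro ⟨H, b⟩ hp
    rw [Finset.mem_sigma, POT_mem, Finset.mem_filter] at hp
    rw [POT_mem]
    exact ⟨CNT_gr hp.1.1 b, hp.2.2⟩
  · rintro ⟨H, b⟩ _ ⟨H', b'⟩ _ h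
    obtain ⟨e1, e2⟩ := CNT_inj h
    have e1' : H = H' := e1
    have e2' : b = b' := e2
    rw [e1', e2']
  · intro H hH
    rw [POT_mem] at hH
    refine ⟨⟨tl H, fun j => decide (H 0 j.succ = 1)⟩, ?_, POT_bord hH.1⟩
    rw [Finset.mem_sigma, POT_mem, Finset.mem_filter]
    refine ⟨⟨POT_tl hH.1, hH.2.2⟩, Finset.mem_univ _, ?_⟩
    show Hered Q (t + 1) (bord (tl H) (ind fun j => decide (H 0 j.succ = 1)))
    rw [POT_bord hH.1]
    exact hH.2
  · intro _ _
    rfl

theorem POT_card (Q : ∀ t : ℕ, Matrix (Fin t) (Fin t) ℤ → Prop) (t : ℕ) :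
    ((POT_s Q t).card : ℝ) ≤ 2 ^ (t.choose 2) := by
  classical
  induction t with
  | zero =>
    have h1 : (POT_s Q 0).card ≤ 1 := by
      rw [Finset.card_le_one]
      intro a _ b _
      exact Subsingleton.elim _ _
    have h2 : ((POT_s Q 0).card : ℝ) ≤ 1 := by exact_mod_cast h1
    simpa using h2
  | succ t ih =>
    have h1 := POT_sum Q t (fun _ => 1)
    rw [Finset.sum_const, nsmul_eq_mul, mul_one] at h1
    rw [h1]
    have h2 : ∀ H ∈ POT_s Q t,
        ∑ b ∈ Finset.univ.filter (fun b : Fin t → Bool => Hered Q (t + 1) (bord H (ind b))),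
          (1 : ℝ) ≤ 2 ^ t := by
      intro H _
      rw [Finset.sum_const, nsmul_eq_mul, mul_one]
      have h3 := Finset.card_le_univ
        (Finset.univ.filter (fun b : Fin t → Bool => Hered Q (t + 1) (bord H (ind b))))
      rw [Fintype.card_fun, Fintype.card_bool, Fintype.card_fin] at h3
      exact_mod_cast h3
    have h3 := Finset.sum_le_sum h2
    rw [Finset.sum_const, nsmul_eq_mul] at h3
    have hc : (t + 1).choose 2 = t.choose 2 + t := by
      rw [Nat.choose_succ_succ' t 1, Nat.choose_one_right, add_comm]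
    rw [hc, pow_add]
    exact h3.trans (mul_le_mul_of_nonneg_right ih (by positivity))

theorem POT : POT_stmt := by
  classical
  intro Q X t₀ m X₀ β T ht hβ hX₀ hT hX hbase hstep
  have hnonneg : ∀ k : ℕ, (0 : ℝ) ≤ X₀ / 2 ^ k + 2 * β := fun k => by positivity
  have key : ∀ k : ℕ, t₀ + k ≤ m →
      ∑ H ∈ POT_s Q (t₀ + k), X (t₀ + k) H ≤
        2 ^ ((t₀ + k).choose 2) * (X₀ / 2 ^ k + 2 * β) := by
    intro k
    induction k with
    | zero =>
      intro _
      show ∑ H ∈ POT_s Q t₀, X t₀ H ≤ 2 ^ (t₀.choose 2) * (X₀ / 2 ^ 0 + 2 * β)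
      have h1 : ∑ H ∈ POT_s Q t₀, X t₀ H ≤ ∑ H ∈ POT_s Q t₀, X₀ := by
        apply Finset.sum_le_sum
        intro H hH
        rw [POT_mem] at hH
        exact hbase H hH.1 hH.2
      rw [Finset.sum_const, nsmul_eq_mul] at h1
      have h2 := mul_le_mul_of_nonneg_right (POT_card Q t₀) hX₀
      have h3 : (2 : ℝ) ^ (t₀.choose 2) * X₀ ≤ 2 ^ (t₀.choose 2) * (X₀ / 2 ^ 0 + 2 * β) := by
        apply mul_le_mul_of_nonneg_left _ (by positivity)
        rw [pow_zero, div_one]
        linarith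
      exact (h1.trans h2).trans h3
    | succ k ih =>
      intro hk
      have ih' := ih (by omega)
      obtain ⟨t, htd⟩ : ∃ t, t = t₀ + k := ⟨_, rfl⟩
      have e : t₀ + (k + 1) = t + 1 := by omega
      rw [← htd] at ih'
      rw [e, POT_sum]
      have h1 : ∀ H ∈ POT_s Q t,
          ∑ b ∈ Finset.univ.filter (fun b : Fin t → Bool => Hered Q (t + 1) (bord H (ind b))),
            X (t + 1) (bord H (ind b)) ≤ 2 ^ t * (X t H / 2 + β) := by
        intro H hH
        rw [POT_mem] at hH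
        apply hstep t (by omega) (by omega) H hH.1 hH.2
        intro b hb
        exact (Finset.mem_filter.1 hb).2
      refine (Finset.sum_le_sum h1).trans ?_
      rw [← Finset.mul_sum, Finset.sum_add_distrib, ← Finset.sum_div, Finset.sum_const,
        nsmul_eq_mul]
      have hc : (t + 1).choose 2 = t.choose 2 + t := by
        rw [Nat.choose_succ_succ' t 1, Nat.choose_one_right, add_comm]
      have h2 := mul_le_mul_of_nonneg_right (POT_card Q t) hβ
      have h3 : (∑ H ∈ POT_s Q t, X t H) / 2 + ((POT_s Q t).card : ℝ) * β ≤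
          2 ^ (t.choose 2) * (X₀ / 2 ^ (k + 1) + 2 * β) := by
        have h4 : (2 : ℝ) ^ (t.choose 2) * (X₀ / 2 ^ (k + 1) + 2 * β) =
            2 ^ (t.choose 2) * (X₀ / 2 ^ k + 2 * β) / 2 + 2 ^ (t.choose 2) * β := by
          rw [pow_succ (2 : ℝ) k]
          field_simp
          ring
        rw [h4]
        linarith
      rw [hc, pow_add (2 : ℝ) (t.choose 2) t]
      calc (2 : ℝ) ^ t * ((∑ H ∈ POT_s Q t, X t H) / 2 + ((POT_s Q t).card : ℝ) * β) ≤
          2 ^ t * (2 ^ (t.choose 2) * (X₀ / 2 ^ (k + 1) + 2 * β)) :=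
            mul_le_mul_of_nonneg_left h3 (by positivity)
        _ = 2 ^ (t.choose 2) * 2 ^ t * (X₀ / 2 ^ (k + 1) + 2 * β) := by ring
  have h1 := key (m - t₀) (by omega)
  have hm : t₀ + (m - t₀) = m := by omega
  rw [hm] at h1
  refine le_trans ?_ h1
  have h2 : cnt m (fun H => Hered Q m H ∧ T ≤ X m H) =
      ((POT_s Q m).filter fun H => T ≤ X m H).card := by
    unfold cnt
    rw [← Set.ncard_coe_finset]
    congr 1
    ext H
    rw [Finset.mem_coe, Finset.mem_filter, POT_mem]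
    constructor
    · rintro ⟨h3, h4, h5⟩
      exact ⟨⟨h3, h4⟩, h5⟩
    · rintro ⟨⟨h3, h4⟩, h5⟩
      exact ⟨h3, h4, h5⟩
  rw [h2, ← nsmul_eq_mul, ← Finset.sum_const]
  have h3 : ∑ H ∈ (POT_s Q m).filter (fun H => T ≤ X m H), T ≤
      ∑ H ∈ (POT_s Q m).filter (fun H => T ≤ X m H), X m H := by
    apply Finset.sum_le_sum
    intro H hH
    exact (Finset.mem_filter.1 hH).2
  refine h3.trans ?_
  apply Finset.sum_le_sum_of_subset_of_nonneg (Finset.filter_subset _ _)
  intro H _ _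
  exact hX m H

end Pool.Agent.helper42.NS
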